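import Mathlib
import Pool.Agent.R1.Thread

/-!
# The spectral gap is bounded by a constant times the magneto-spectral height

For every connected graph of minimum degree at least two, `λ_2(G) ≤ 46464 ν(G)`.

If the minimum degree is `δ ≥ 3` then `λ_2 ≤ 4 δ / 3` and `ν > δ - 2 √(δ - 1) ≥ δ / 20`. If there
are vertices of degree two, let `h` be the largest radius of a ball without branching vertices.
A tent function on such a ball gives `λ_2 = O(1 / (h + 1)²)`; on the other hand every walk without
backtracking meets a branching vertex after `2 h + 3` steps, and the signed matching recurrence gives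
`ν ≥ 1 / (8 h + 11)²`. Cycles are treated directly.
-/

set_option autoImplicit false

open Finset

namespace Pool.Agent.Results.MP_8e2f96_co.GapBound

open Pool.Agent.R1.Mag Pool.Agent.R1.Gap Pool.Agent.R1.Thread

open Classical in
lemma main {V : Type*} [Fintype V] (G : SimpleGraph V) (hG : G.Connected)
    (hdeg : ∀ v, 2 ≤ G.degree v) : lam2 G ≤ 46464 * nu G := by
  have hne : Nonempty V := hG.nonempty
  by_cases h3 : ∀ v, 3 ≤ G.degree v
  · -- minimum degree at least three
    obtain ⟨v, -, hv⟩ := Finset.exists_min_image Finset.univ (fun v => G.degree v)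
      Finset.univ_nonempty
    obtain ⟨d, hd⟩ : ∃ d, d = G.degree v := ⟨_, rfl⟩
    have hd3 : 3 ≤ d := by rw [hd]; exact h3 v
    have h1 := Pool.Agent.R1.DegBound.degBound G d hd3 (fun u => by
      rw [hd]; exact hv u (Finset.mem_univ _))
    have hcard : 4 ≤ Fintype.card V := by
      have := G.degree_lt_card_verts v
      omega
    have h2 := lam2_le_deg G v hcard
    rw [← hd] at h2
    have hd' : (3 : ℝ) ≤ d := by exact_mod_cast hd3
    have h4 : √((d : ℝ) - 1) ≤ 19 / 40 * d := by
      rw [Real.sqrt_le_left (by positivity)]
      nlinarith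
    nlinarith
  · push Not at h3
    obtain ⟨v0, hv0⟩ := h3
    by_cases hB : ∃ b, 3 ≤ G.degree b
    · -- some branching vertices and some vertices of degree two
      obtain ⟨b, hb⟩ := hB
      have hex : ∃ k : ℕ, ¬ ∃ p, ∀ x, G.dist p x ≤ k → G.degree x ≤ 2 := by
        refine ⟨Finset.univ.sup (fun p => G.dist p b), ?_⟩
        rintro ⟨p, hp⟩
        have h1 := hp b (Finset.le_sup (f := fun p => G.dist p b) (Finset.mem_univ p))
        omega
      have hfind := Nat.find_spec hex
      have hmin := fun k (hk : k < Nat.find hex) => Nat.find_min hex hk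
      obtain ⟨k, hk⟩ : ∃ k, k = Nat.find hex := ⟨_, rfl⟩
      rw [← hk] at hfind hmin
      rcases k with _ | h
      · exfalso
        apply hfind
        refine ⟨v0, fun x hx => ?_⟩
        have : v0 = x := (hG.dist_eq_zero_iff).1 (Nat.le_zero.1 hx)
        rw [← this]
        omega
      · have hRh := hmin h (Nat.lt_succ_self h)
        rw [not_not] at hRh
        obtain ⟨p, hp⟩ := hRh
        push Not at hfind
        have hball : ∀ p, ∃ x, G.dist p x ≤ h + 1 ∧ 3 ≤ G.degree x := by
          intro p
          obtain ⟨x, hx1, hx2⟩ := hfind p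
          exact ⟨x, hx1, by omega⟩
        have hnu := nu_ball G hG hdeg h hball
        have hcard : h + 2 ≤ Fintype.card V := by
          obtain ⟨x, hx1, hx2⟩ := hfind p
          have hx3 : G.dist p x = h + 1 := by
            by_contra hcon
            have := hp x (by omega)
            omega
          have hsub : Finset.range (h + 2) ⊆ Finset.univ.image (fun y => G.dist p y) := by
            intro j hj
            rw [Finset.mem_range] at hj
            obtain ⟨u, hu⟩ := exists_dist hG p x j (by omega)
            rw [Finset.mem_image]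
            exact ⟨u, Finset.mem_univ _, hu⟩
          have h1 := (Finset.card_le_card hsub).trans Finset.card_image_le
          rwa [Finset.card_range, Finset.card_univ] at h1
        have htent := tent hG p (h / 4) (fun x hx => hp x (by omega)) (by omega)
        have hm : (h : ℝ) + 1 ≤ 4 * (((h / 4 : ℕ) : ℝ) + 1) := by
          have : h + 1 ≤ 4 * (h / 4 + 1) := by omega
          exact_mod_cast this
        have hh0 : (0 : ℝ) ≤ h := by positivity
        have h5 : 24 / ((((h / 4 : ℕ) : ℝ)) + 1) ^ 2 ≤ 384 / ((h : ℝ) + 1) ^ 2 := by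
          rw [div_le_div_iff₀ (by positivity) (by positivity)]
          nlinarith
        have h6 : 384 / ((h : ℝ) + 1) ^ 2 ≤ 46464 * (1 / (8 * (h : ℝ) + 11) ^ 2) := by
          rw [mul_one_div, div_le_div_iff₀ (by positivity) (by positivity)]
          nlinarith
        linarith
    · -- cycles
      push Not at hB
      have hnu := nu_general G hdeg
      have hcard : 3 ≤ Fintype.card V := by
        have h1 := G.degree_lt_card_verts v0
        have h2 := hdeg v0
        omega
      obtain ⟨n, hn⟩ : ∃ n, n = Fintype.card V := ⟨_, rfl⟩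
      rw [← hn] at hnu hcard
      have htent := tent hG v0 ((n - 2) / 4) (fun x _ => by
        have := hB x
        omega) (by rw [← hn]; omega)
      have hn3 : (3 : ℝ) ≤ n := by exact_mod_cast hcard
      have hm : (n : ℝ) ≤ 4 * ((((n - 2) / 4 : ℕ) : ℝ) + 1) + 1 := by
        have : n ≤ 4 * ((n - 2) / 4 + 1) + 1 := by omega
        exact_mod_cast this
      have h5 : 24 / (((((n - 2) / 4 : ℕ)) : ℝ) + 1) ^ 2 ≤ 384 / ((n : ℝ) - 1) ^ 2 := by
        have : (0 : ℝ) < (n : ℝ) - 1 := by linarith
        rw [div_le_div_iff₀ (by positivity) (by positivity)]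
        nlinarith
      have h6 : 384 / ((n : ℝ) - 1) ^ 2 ≤ 46464 * (1 / (2 * (n : ℝ) + 1) ^ 2) := by
        have : (0 : ℝ) < (n : ℝ) - 1 := by linarith
        rw [mul_one_div, div_le_div_iff₀ (by positivity) (by positivity)]
        nlinarith
      linarith

open Classical in
/-- There is a constant `c > 0` with `λ_2(G) ≤ c ν(G)` for every connected graph `G` of minimum
degree at least two; so for every `d ≥ 2` there is a constant `c_d > 0` such that
`λ_2(G) ≤ c_d ν(G)` for every connected graph `G` of minimum degree at least `d`. -/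
theorem result : ∃ c : ℝ, 0 < c ∧ ∀ d : ℕ, 2 ≤ d → ∀ (V : Type) [Fintype V] (G : SimpleGraph V),
    G.Connected → (∀ v, d ≤ G.degree v) → lam2 G ≤ c * nu G :=
  ⟨46464, by norm_num, fun _ hd _ _ G hG h => main G hG fun v => hd.trans (h v)⟩

end Pool.Agent.Results.MP_8e2f96_co.GapBound
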